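import Pool.Agent.K3h78.PP.Stm

/-! Brick PSUM of the project PP (helper78): multisets of nonzero complex numbers are determined by
their power sums. -/

set_option autoImplicit false

namespace Pool.Agent.K3h90.PP

open Pool.Agent.K3h78.PP

theorem t_PSUM : S_PSUM := by
  classical
  intro s t hs ht h
  have hP : ∀ P : Polynomial ℂ, (s.map fun x => x * P.eval x).sum =
      (t.map fun x => x * P.eval x).sum := by
    intro P
    induction P using Polynomial.induction_on' with
    | add p q hp hq =>
      simp only [Polynomial.eval_add, mul_add, Multiset.sum_map_add, hp, hq]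
    | monomial m c =>
      have h1 : ∀ x : ℂ, x * (Polynomial.monomial m c).eval x = c * x ^ (m + 1) := by
        intro x
        rw [Polynomial.eval_monomial]
        ring
      simp only [h1, Multiset.sum_map_mul_left]
      rw [h (m + 1) (by omega)]
  refine Multiset.ext.2 fun z => ?_
  by_cases hz : z = 0
  · rw [Multiset.count_eq_zero.2 fun h1 => hs z h1 hz, Multiset.count_eq_zero.2 fun h1 => ht z h1 hz]
  have h0 := hP (∏ w ∈ (s + t).toFinset.erase z, (Polynomial.X - Polynomial.C w))
  have hv : ∀ x ∈ s + t, x ≠ z → x * (∏ w ∈ (s + t).toFinset.erase z,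
      (Polynomial.X - Polynomial.C w)).eval x = 0 := by
    intro x hx hxz
    rw [Polynomial.eval_prod, Finset.prod_eq_zero (i := x), mul_zero]
    · rw [Finset.mem_erase]
      exact ⟨hxz, Multiset.mem_toFinset.2 hx⟩
    · simp
  have hnz : z * (∏ w ∈ (s + t).toFinset.erase z,
      (Polynomial.X - Polynomial.C w)).eval z ≠ 0 := by
    refine mul_ne_zero hz ?_
    rw [Polynomial.eval_prod, Finset.prod_ne_zero_iff]
    intro w hw
    rw [Polynomial.eval_sub, Polynomial.eval_X, Polynomial.eval_C, sub_ne_zero]
    exact (Finset.ne_of_mem_erase hw).symm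
  rw [Multiset.sum_map_eq_nsmul_single z (fun x hx hxs => hv x (Multiset.mem_add.2 (Or.inl hxs)) hx),
    Multiset.sum_map_eq_nsmul_single z (fun x hx hxt => hv x (Multiset.mem_add.2 (Or.inr hxt)) hx),
    nsmul_eq_mul, nsmul_eq_mul] at h0
  exact_mod_cast mul_right_cancel₀ hnz h0

end Pool.Agent.K3h90.PP
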